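import Pool.Agent.H23.OCDB

open Pool.Agent.H23.OCD

theorem Pool.Agent.Results.MP_9a7beb_co.Counter.result :
    ∃ (n : ℕ) (G : SimpleGraph (Fin n)), 2 ≤ n ∧ ocd (middle G) < ocd G.lineGraph :=
  ⟨10, B.G, by norm_num, by have := B.mid_le; have := B.le_l; omega⟩
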